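import Pool.Agent.R425.D.SecT

/-!
# Two-power descent for sections, with the global conclusion
-/

set_option autoImplicit false
set_option linter.all false

open IsDedekindDomain NumberField WeierstrassCurve MvPolynomial

namespace Pool.Agent.N168.TE

open Pool.Agent.TH954 Pool.Agent.TH942 Pool.Agent.W620.SC Pool.Agent.R425.D
open Pool.Agent.Y702.G (base pts)

open scoped Classical

/-- Twice the image of the section `s` in the pro-2 fundamental group of `E`, through the point `P`
of `E` over `F`, is the trivial section: for every `k` there is a point `Q` of `E` over `M` with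
`2 ^ k • Q = 2 • P` which is fixed by the `s g`. -/
def TwiceTrivial {K F M B : Type} [Field K] [Field F] [Field M] [Field B] [Algebra K F]
    [Algebra F M] [Algebra K M] [Algebra K B] [IsScalarTower K F M] (s : GalSection K F M B)
    (E : WeierstrassCurve K) (P : (E.baseChange F).toAffine.Point) : Prop :=
  ∀ k : ℕ, ∃ Q : (E.baseChange M).toAffine.Point,
    2 ^ k • Q = 2 • pm E (IsScalarTower.toAlgHom K F M) P ∧
    ∀ g : B ≃ₐ[K] B, pm E ((s.s g : M →ₐ[F] M).restrictScalars K) Q = Q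

section

variable {K : Type} [Field K] [NumberField K] {F Ω M B : Type} [Field F] [Field Ω] [Field M]
  [Field B] [Algebra K F] [Algebra F Ω] [Algebra K Ω] [IsScalarTower K F Ω] [Algebra F M]
  [Algebra K M] [IsScalarTower K F M] [Algebra K B] [IsAlgClosure F Ω] [IsAlgClosure K B]

/-- The local points of a section are, up to a factor two, divisible by all powers of two. -/
theorem sec_sw' {n : ℕ} (a b : Fin n → K) (hD : ∀ i, 4 * a i ^ 3 + 27 * b i ^ 2 ≠ 0)
    (hG : ∀ i, Good (sw (a i) (b i)))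
    (S : Set (MvPolynomial (Fin n × Fin 3) K)) (hS : ∀ f ∈ S, ∃ d, MultiHom d f)
    (U : Set (ValuationSubring F)) (hU : ∀ O ∈ U, ∀ c : K, algebraMap K F c ∈ O)
    (e : M →ₐ[F] Ω) (he : unramified F Ω U ≤ e.fieldRange)
    (P : (i : Fin n) → ((sw (a i) (b i)).baseChange F).toAffine.Point)
    (hPS : OnX S (fun i => crd (P i))) (s : GalSection K F M B)
    (p : ∀ v : HeightOneSpectrum (𝓞 K), Plc K M (AlgebraicClosure (v.adicCompletion K)))
    (hp : ∀ v, s.GivenBy (v.adicCompletion K) (p v)) :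
    ∃ Pv : (v : HeightOneSpectrum (𝓞 K)) → (i : Fin n) →
        ((sw (a i) (b i)).baseChange (v.adicCompletion K)).toAffine.Point,
      (∀ v, OnX S (fun i => crd (Pv v i))) ∧
      (∀ v i, (p v).Spec (fun j => algebraMap F M (crd (P i) j))
        (fun j => algebraMap (v.adicCompletion K) (AlgebraicClosure (v.adicCompletion K))
          (crd (Pv v i) j))) ∧
      (∀ v i (k : ℕ), ∃ z, 2 • Pv v i = 2 ^ k • z) ∧
      ∀ i, TwiceTrivial s (sw (a i) (b i)) (P i) := by
  have hΩ1 : IsAlgClosed Ω := IsAlgClosure.isAlgClosed F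
  have hΩ2 : Algebra.IsAlgebraic F Ω := IsAlgClosure.isAlgebraic
  have hMalg : Algebra.IsAlgebraic F M := Algebra.IsAlgebraic.of_injective e e.injective
  have hcΩ : CharZero Ω := charZero_of_injective_algebraMap (algebraMap K Ω).injective
  have hcv : ∀ v : HeightOneSpectrum (𝓞 K), CharZero (v.adicCompletion K) := fun v =>
    charZero_of_injective_algebraMap (algebraMap K (v.adicCompletion K)).injective
  have hcv' : ∀ v : HeightOneSpectrum (𝓞 K), CharZero (AlgebraicClosure (v.adicCompletion K)) :=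
    fun v => charZero_of_injective_algebraMap
      (algebraMap (v.adicCompletion K) (AlgebraicClosure (v.adicCompletion K))).injective
  set A := toSAct s with hA
  have hpl : ∀ v, GeoPlc A (p v) := by
    intro v σ τ hστ x
    refine hp v σ ((eqv K B).autCongr τ) ?_ x _ ⟨x.2, rfl⟩
    intro z c hc
    obtain ⟨y, rfl⟩ := (eqv K B).surjective z
    have e1 : (p v).val (A.j y) ((p v).iot A.j y) := Plc.val_j _ y
    have e2 : (p v).val (A.j (τ y)) ((p v).iot A.j (τ y)) := Plc.val_j _ (τ y)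
    have e3 : s.j ((eqv K B).autCongr τ (eqv K B y)) = A.j (τ y) := by
      change s.j (eqv K B (τ ((eqv K B).symm (eqv K B y)))) = _
      rw [AlgEquiv.symm_apply_apply]
      rfl
    have e4 : (p v).iot A.j y = c := e1.unique hc
    rw [e3, ← e4, ← hστ y]
    exact e2
  have hAF : ∀ (τ : AlgebraicClosure K ≃ₐ[K] AlgebraicClosure K) (x : F),
      A.s τ (algebraMap F M x) = algebraMap F M x :=
    fun τ x => (s.s ((eqv K B).autCongr τ)).commutes x
  set P' : (i : Fin n) → ((sw (a i) (b i)).baseChange M).toAffine.Point :=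
    fun i => pm (sw (a i) (b i)) (IsScalarTower.toAlgHom K F M) (P i) with hP'
  have hP'S : OnX S (fun i => crd (P' i)) := onX_hom _ hPS
  have hP'f : ∀ i τ, A.pt (a i) (b i) τ (P' i) = P' i := by
    intro i τ
    change pm (sw (a i) (b i)) _ (pm (sw (a i) (b i)) _ (P i)) = pm (sw (a i) (b i)) _ (P i)
    rw [pm_pm]
    congr 2
    apply AlgHom.ext
    intro x
    exact hAF τ x
  choose red h1 h2 using fun (v : HeightOneSpectrum (𝓞 K)) (i : Fin n) =>
    exists_redM (p v) (hD i)
  -- the local points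
  have hfix : ∀ v i, ∃ z, incl (sw (a i) (b i)) (v.adicCompletion K) z = red v i (P' i) := by
    intro v i
    refine exists_of_fixed _ (fun σ => ?_)
    obtain ⟨τ, hτ⟩ := exists_compat ((p v).iot A.j) σ
    have h3 := red_act (pl := p v) (a := a i) (b := b i) (red := red v i) (map_zero (red v i))
      (h1 v i) (h2 v i) ((A.s τ : M ≃ₐ[K] M) : M →ₐ[K] M)
      ((σ : AlgebraicClosure (v.adicCompletion K) →ₐ[v.adicCompletion K]
        AlgebraicClosure (v.adicCompletion K)).restrictScalars K)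
      (fun x => hpl v σ τ hτ x) (P' i)
    have h4 := hP'f i τ
    unfold SAct.pt at h4
    rw [h4] at h3
    exact h3.symm
  choose Pv hPv using hfix
  have hcr : ∀ v i, ∃ u : M, u ≠ 0 ∧ ∀ j, ∃ h : u * crd (P' i) j ∈ (p v).W,
      (p v).ρ ⟨u * crd (P' i) j, h⟩ = crd (red v i (P' i)) j := fun v i =>
    red_crd (pl := p v) (red := red v i) (map_zero (red v i)) (h1 v i) (h2 v i) (P' i)
  have hcPv : ∀ v i j, crd (red v i (P' i)) j =
      algebraMap (v.adicCompletion K) (AlgebraicClosure (v.adicCompletion K)) (crd (Pv v i) j) := by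
    intro v i j
    rw [← hPv v i]
    exact crd_incl' _ _
  -- the cocycles
  have main : ∀ i (k : ℕ), ∃ (Q : ((sw (a i) (b i)).baseChange M).toAffine.Point)
      (ξ : (AlgebraicClosure K ≃ₐ[K] AlgebraicClosure K) → AlgPt (sw (a i) (b i)) K)
      (T : AlgPt (sw (a i) (b i)) K), 2 ^ k • Q = P' i ∧
      (∀ v σ τ, Compat ((p v).iot A.j) σ τ →
        pm (sw (a i) (b i)) ((p v).iot A.j) (ξ τ) =
          act (sw (a i) (b i)) σ (red v i Q) - red v i Q) ∧
      (∀ σ, pm (sw (a i) (b i)) A.j (ξ σ) = A.pt (a i) (b i) σ Q - Q) ∧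
      2 ^ k • T = 0 ∧ ∀ τ, act (sw (a i) (b i)) τ T = T + 2 • ξ τ := by
    intro i k
    have hpos : 1 ≤ 2 ^ k := Nat.one_le_two_pow
    obtain ⟨Q, hQ⟩ := exists_div_unram (hD i) ((e.restrictScalars K).comp A.j) U hU e he (P i) hpos
    obtain ⟨ξ, hξ, hξN, hξj⟩ := exists_cocycle A hQ (hP'f i)
      (fun T hT => torsion_mem_sub (hD i) (e.restrictScalars K) A.j _ hpos T hT)
    have hloc : ∀ v σ τ, Compat ((p v).iot A.j) σ τ →
        pm (sw (a i) (b i)) ((p v).iot A.j) (ξ τ) =
          act (sw (a i) (b i)) σ (red v i Q) - red v i Q :=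
      fun v => (cocycle_local A (hpl v) (h1 v i) (h2 v i) hξj).1
    have hco2 : IsCocycle (sw (a i) (b i)) (fun σ => 2 • ξ σ) := by
      refine ⟨fun σ τ => ?_, ?_⟩
      · change 2 • ξ (σ * τ) = 2 • ξ σ + act (sw (a i) (b i)) σ (2 • ξ τ)
        rw [hξ.1 σ τ, ns_add, act_nsmul]
      · obtain ⟨F, hF, h⟩ := hξ.2
        exact ⟨F, hF, fun σ τ hστ => by
          change 2 • ξ σ = 2 • ξ τ
          rw [h σ τ hστ]⟩
    obtain ⟨T, hT1, hT2⟩ := cocycle_trivial (hG i).sha (hG i).fin (hG i).tor k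
      (fun σ => 2 • ξ σ) hco2 (fun σ => by
        change 2 ^ k • (2 • ξ σ) = 0
        have e0 : 2 ^ k • (2 • ξ σ) = 2 • (2 ^ k • ξ σ) := by
          rw [← ns_mul, ← ns_mul, mul_comm]
        rw [e0, hξN σ, two_nsmul, add_zero]) (fun v => by
        refine ⟨(p v).iot A.j, 2 • red v i Q, fun σ τ hστ => ?_⟩
        change pm (sw (a i) (b i)) _ (2 • ξ τ) = _
        rw [map_nsmul, hloc v σ τ hστ, act_nsmul, ns_sub]) (fun w =>
        trivial_two hξ.1 w.Completion (twoGal_inf w))
    refine ⟨Q, ξ, T, hQ, hloc, hξj, hT1, fun τ => ?_⟩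
    rw [hT2 τ]
    abel
  refine ⟨Pv, fun v => ?_, fun v i => ?_, fun v i k => ?_, fun i k => ?_⟩
  · have h3 : OnX S (fun i => crd (red v i (P' i))) :=
      onX_red (p v) hS (fun i => hcr v i) hP'S
    intro f hf
    have h4 := h3 f hf
    have h7 := aeval_algebraMap_apply (AlgebraicClosure (v.adicCompletion K))
      (fun p : Fin n × Fin 3 => crd (Pv v p.1) p.2) f
    simp only [hcPv] at h4
    have h8 := h7.symm.trans h4
    exact (map_eq_zero _).1 h8
  · obtain ⟨u, hu0, hu⟩ := hcr v i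
    refine ⟨u, hu0, fun j => ?_⟩
    obtain ⟨h3, h4⟩ := hu j
    have h5 : crd (P' i) j = algebraMap F M (crd (P i) j) := crd_pm _ _ _
    change (p v).val (u * algebraMap F M (crd (P i) j))
      (algebraMap (v.adicCompletion K) (AlgebraicClosure (v.adicCompletion K)) (crd (Pv v i) j))
    rw [← hcPv v i j, ← h4, ← h5]
    exact ⟨h3, rfl⟩
  · obtain ⟨Q, ξ, T, hQ, hloc, -, hT1, hT2⟩ := main i k
    have hfx : ∀ σ : AlgebraicClosure (v.adicCompletion K) ≃ₐ[v.adicCompletion K]
        AlgebraicClosure (v.adicCompletion K), act (sw (a i) (b i)) σ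
          (2 • red v i Q - pm (sw (a i) (b i)) ((p v).iot A.j) T) =
        2 • red v i Q - pm (sw (a i) (b i)) ((p v).iot A.j) T := by
      intro σ
      obtain ⟨τ, hτ⟩ := exists_compat ((p v).iot A.j) σ
      have e1 : act (sw (a i) (b i)) σ (2 • red v i Q) =
          2 • red v i Q + pm (sw (a i) (b i)) ((p v).iot A.j) (2 • ξ τ) := by
        rw [map_nsmul, hloc v σ τ hτ, act_nsmul, ns_sub]
        abel
      rw [act_sub, act_pm ((p v).iot A.j) hτ, e1, hT2, map_add]
      abel
    obtain ⟨z, hz⟩ := exists_of_fixed _ hfx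
    refine ⟨z, incl_injective ?_⟩
    have e3 : pm (sw (a i) (b i)) ((p v).iot A.j) (2 ^ k • T) =
        2 ^ k • pm (sw (a i) (b i)) ((p v).iot A.j) T := map_nsmul _ _ _
    have e4 : 2 ^ k • red v i Q = red v i (P' i) := by
      rw [← map_nsmul]
      exact congrArg _ hQ
    rw [incl_nsmul, incl_nsmul, hz, ns_sub, ← e3, hT1, map_zero, sub_zero, hPv, ← e4, ← ns_mul,
      ← ns_mul, mul_comm]
  · obtain ⟨Q, ξ, T, hQ, -, hξj, hT1, hT2⟩ := main i k
    refine ⟨2 • Q - pm (sw (a i) (b i)) A.j T, ?_, fun g => ?_⟩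
    · have e3 : 2 ^ k • pm (sw (a i) (b i)) A.j T = 0 := by
        rw [← map_nsmul, hT1, map_zero]
      have e5 : 2 ^ k • (2 • Q) = 2 • (2 ^ k • Q) := by
        rw [← mul_smul, ← mul_smul, mul_comm]
      rw [smul_sub, e3, sub_zero, e5, hQ]
    · have h3 : A.pt (a i) (b i) ((eqv K B).autCongr.symm g) =
          pm (sw (a i) (b i)) ((s.s g : M →ₐ[F] M).restrictScalars K) := by
        unfold SAct.pt
        congr 1
        apply AlgHom.ext
        intro z
        exact toSAct_s s g z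
      rw [← h3]
      have h4 : A.pt (a i) (b i) ((eqv K B).autCongr.symm g) Q =
          Q + pm (sw (a i) (b i)) A.j (ξ ((eqv K B).autCongr.symm g)) := by
        rw [hξj]
        abel
      have h5 : A.pt (a i) (b i) ((eqv K B).autCongr.symm g) (pm (sw (a i) (b i)) A.j T) =
          pm (sw (a i) (b i)) A.j T +
            2 • pm (sw (a i) (b i)) A.j (ξ ((eqv K B).autCongr.symm g)) := by
        rw [A.pt_j, hT2, map_add, map_nsmul]
      rw [map_sub, map_nsmul, h4, h5, smul_add]
      abel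

/-- the version for arbitrary short equations -/
theorem sec_div' {n : ℕ} (E : Fin n → WeierstrassCurve K)
    (hE : ∀ i, (E i).a₁ = 0 ∧ (E i).a₂ = 0 ∧ (E i).a₃ = 0) (hd : ∀ i, (E i).Δ ≠ 0)
    (hG : ∀ i, Good (E i))
    (S : Set (MvPolynomial (Fin n × Fin 3) K)) (hS : ∀ f ∈ S, ∃ d, MultiHom d f)
    (U : Set (ValuationSubring F)) (hU : ∀ O ∈ U, ∀ c : K, algebraMap K F c ∈ O)
    (e : M →ₐ[F] Ω) (he : unramified F Ω U ≤ e.fieldRange)
    (P : (i : Fin n) → ((E i).baseChange F).toAffine.Point)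
    (hPS : OnX S (fun i => crd (P i))) (s : GalSection K F M B)
    (p : ∀ v : HeightOneSpectrum (𝓞 K), Plc K M (AlgebraicClosure (v.adicCompletion K)))
    (hp : ∀ v, s.GivenBy (v.adicCompletion K) (p v)) :
    ∃ Pv : (v : HeightOneSpectrum (𝓞 K)) → (i : Fin n) →
        ((E i).baseChange (v.adicCompletion K)).toAffine.Point,
      (∀ v, OnX S (fun i => crd (Pv v i))) ∧
      (∀ v i, (p v).Spec (fun j => algebraMap F M (crd (P i) j))
        (fun j => algebraMap (v.adicCompletion K) (AlgebraicClosure (v.adicCompletion K))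
          (crd (Pv v i) j))) ∧
      (∀ v i (k : ℕ), ∃ z, 2 • Pv v i = 2 ^ k • z) ∧ ∀ i, TwiceTrivial s (E i) (P i) := by
  choose a b hab using fun i => short_eq_sw (hE i).1 (hE i).2.1 (hE i).2.2
  obtain rfl : E = fun i => sw (a i) (b i) := funext hab
  exact sec_sw' a b (fun i h0 => hd i (by rw [sw_Δ, h0, mul_zero])) hG S hS U hU e he P hPS s p hp

end

section main

variable {n : ℕ} {W : Fin n → WeierstrassCurve ℤ}

variable {K : Type} [Field K] [NumberField K]

/-- **Sections over two-extensions.** -/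
theorem main (hW : ∀ i, (W i).a₁ = 0 ∧ (W i).a₂ = 0 ∧ (W i).a₃ = 0) (hΔ : ∀ i, (W i).Δ ≠ 0)
    (hT : ∀ i, Triv (W i)) (hK : TwoExt W K)
    (S : Set (MvPolynomial (Fin n × Fin 3) K)) (hS : ∀ f ∈ S, ∃ d, MultiHom d f)
    {F Ω M B : Type} [Field F] [Field Ω] [Field M] [Field B] [Algebra K F] [Algebra F Ω]
    [Algebra K Ω] [IsScalarTower K F Ω] [Algebra F M] [Algebra K M] [IsScalarTower K F M]
    [Algebra K B] [IsAlgClosure F Ω] [IsAlgClosure K B]
    (U : Set (ValuationSubring F)) (hU : ∀ O ∈ U, ∀ c : K, algebraMap K F c ∈ O)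
    (e : M →ₐ[F] Ω) (he : unramified F Ω U ≤ e.fieldRange)
    (P : (i : Fin n) → ((base (W i) K).baseChange F).toAffine.Point)
    (hP : OnX S (fun i => crd (P i))) (s : GalSection K F M B)
    (p : ∀ v : HeightOneSpectrum (𝓞 K), Plc K M (AlgebraicClosure (v.adicCompletion K)))
    (hp : ∀ v, s.GivenBy (v.adicCompletion K) (p v)) :
    (∀ i, TwiceTrivial s (base (W i) K) (P i)) ∧
    (∀ v : HeightOneSpectrum (𝓞 K), ∃ Q : (i : Fin n) →
        ((base (W i) K).baseChange (v.adicCompletion K)).toAffine.Point,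
      OnX S (fun i => crd (Q i)) ∧
      (∀ i, (p v).Spec (fun j => algebraMap F M (crd (P i) j))
        (fun j => algebraMap (v.adicCompletion K) (AlgebraicClosure (v.adicCompletion K))
          (crd (Q i) j))) ∧
      (∀ i (k : ℕ), ∃ R, 2 • Q i = 2 ^ k • R) ∧
      (((2 : ℕ) : 𝓞 K) ∈ v.asIdeal → ∀ i, ∃ m : ℕ, Odd m ∧ (2 * m) • Q i = 0)) ∧
    ((∀ i, TwoOddRat (W i)) → ∀ v : HeightOneSpectrum (𝓞 K), ((2 : ℕ) : 𝓞 K) ∈ v.asIdeal →
      ∃ y : (i : Fin n) → (base (W i) ℚ).toAffine.Point,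
        (∀ f ∈ S, eval (fun p => algebraMap ℚ K (crd (y p.1) p.2)) f = 0) ∧
        ∀ i, (p v).Spec (fun j => algebraMap F M (crd (P i) j))
          (fun j => algebraMap K (AlgebraicClosure (v.adicCompletion K))
            (algebraMap ℚ K (crd (y i) j)))) := by
  have hcz : ∀ v : HeightOneSpectrum (𝓞 K), CharZero (v.adicCompletion K) := fun v =>
    charZero_of_injective_algebraMap (algebraMap K (v.adicCompletion K)).injective
  obtain ⟨Pv, hX, hspec, hdiv, htt⟩ := sec_div' (fun i => base (W i) K)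
    (fun i => ⟨by show ((W i).a₁ : K) = 0; rw [(hW i).1, Int.cast_zero],
      by show ((W i).a₂ : K) = 0; rw [(hW i).2.1, Int.cast_zero],
      by show ((W i).a₃ : K) = 0; rw [(hW i).2.2, Int.cast_zero]⟩)
    (fun i => by
      rw [WeierstrassCurve.map_Δ]
      simpa using hΔ i)
    (fun i => ⟨(hK.sel hΔ hT i).1, (hK.sel hΔ hT i).2.1, (hK.sel hΔ hT i).2.2⟩)
    S hS U hU e he P hP s p hp
  have hφ : ∀ v : HeightOneSpectrum (𝓞 K), ((2 : ℕ) : 𝓞 K) ∈ v.asIdeal →
      ∃ g : v.adicCompletion K →+* ℚ_[2], ∃ φ : (i : Fin n) →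
        ((base (W i) K).baseChange (v.adicCompletion K)).toAffine.Point →+
          (base (W i) ℚ_[2]).toAffine.Point, ∀ i P j, crd (φ i P) j = g (crd P j) := by
    intro v hv
    obtain ⟨hv1, hv2⟩ := hK.two hΔ v hv
    obtain ⟨e⟩ := split_iso v hv1 hv2
    let g : v.adicCompletion K →+* ℚ_[2] := e.symm.toRingHom
    have hφ : ∀ i, ∃ φ : ((base (W i) K).baseChange (v.adicCompletion K)).toAffine.Point →+
        (base (W i) ℚ_[2]).toAffine.Point, ∀ P j, crd (φ P) j = g (crd P j) := by
      intro i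
      refine transport g _ _ ?_
      show ((base (W i) K).map (algebraMap K (v.adicCompletion K))).map g = _
      rw [base_map, base_map]
    choose φ hφ using hφ
    exact ⟨g, φ, hφ⟩
  refine ⟨htt, fun v => ⟨Pv v, hX v, hspec v, hdiv v, fun hv i => ?_⟩, fun hR v hv => ?_⟩
  · obtain ⟨g, φ, hφ⟩ := hφ v hv
    obtain ⟨m, hm1, hm2⟩ := two_odd_of_div (hW i) (hΔ i) (φ i (Pv v i)) (fun k => by
      obtain ⟨z, hz⟩ := hdiv v i k
      exact ⟨φ i z, by rw [← map_nsmul, hz, map_nsmul]⟩)
    refine ⟨m, hm1, ?_⟩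
    have hinj : Function.Injective (φ i) := by
      intro A B hAB
      apply crd_inj
      intro j
      apply g.injective
      rw [← hφ, ← hφ, hAB]
    apply hinj
    rw [map_nsmul, hm2, map_zero]
  · obtain ⟨g, φ, hφ⟩ := hφ v hv
    have hg : Function.Injective g := g.injective
    have hodd : ∀ i, ∃ m : ℕ, Odd m ∧ (2 * m) • φ i (Pv v i) = 0 := fun i =>
      two_odd_of_div (hW i) (hΔ i) _ (fun k => by
        obtain ⟨z, hz⟩ := hdiv v i k
        exact ⟨φ i z, by rw [← map_nsmul, hz, map_nsmul]⟩)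
    choose m hm1 hm2 using hodd
    choose y hy using fun i => hR i (φ i (Pv v i)) (m i) (hm1 i) (hm2 i)
    have hcrd : ∀ i j, crd (Pv v i) j =
        algebraMap K (v.adicCompletion K) (algebraMap ℚ K (crd (y i) j)) := by
      intro i j
      apply hg
      rw [← hφ, hy]
      have e1 : (g.comp ((algebraMap K (v.adicCompletion K)).comp (algebraMap ℚ K))) =
          algebraMap ℚ ℚ_[2] := Subsingleton.elim _ _
      rw [← e1]
      rfl
    refine ⟨y, fun f hf => ?_, fun i => ?_⟩
    · have h1 := hX v f hf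
      rw [aeval_def] at h1
      have e2 : (fun p : Fin n × Fin 3 => crd (Pv v p.1) p.2) =
          fun p => algebraMap K (v.adicCompletion K) (algebraMap ℚ K (crd (y p.1) p.2)) := by
        funext p
        exact hcrd p.1 p.2
      rw [e2] at h1
      have h2 : eval₂ (algebraMap K (v.adicCompletion K))
          (fun p => algebraMap K (v.adicCompletion K) (algebraMap ℚ K (crd (y p.1) p.2))) f =
          algebraMap K (v.adicCompletion K)
            (eval (fun p => algebraMap ℚ K (crd (y p.1) p.2)) f) :=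
        (eval₂_comp_left (algebraMap K (v.adicCompletion K)) (RingHom.id K) _ f).symm
      rw [h2, map_eq_zero] at h1
      exact h1
    · have h1 := hspec v i
      have e2 : (fun j => algebraMap (v.adicCompletion K) (AlgebraicClosure (v.adicCompletion K))
          (crd (Pv v i) j)) = fun j => algebraMap K (AlgebraicClosure (v.adicCompletion K))
          (algebraMap ℚ K (crd (y i) j)) := by
        funext j
        rw [hcrd i j, ← IsScalarTower.algebraMap_apply]
      rw [e2] at h1
      exact h1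

end main

end Pool.Agent.N168.TE
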