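import Pool.Agent.N168.TE.Sec

/-!
# Sections for the twisted fibre products: the explicit family
-/

set_option autoImplicit false
set_option linter.all false

open IsDedekindDomain NumberField WeierstrassCurve MvPolynomial

namespace Pool.Agent.N168.TE

open Pool.Agent.TH954 Pool.Agent.TH942 Pool.Agent.W620.SC Pool.Agent.R425.D
open Pool.Agent.Y702.G (base pts)

open scoped Classical

section ex

variable {F : Type} [Field F] [CharZero F] [Algebra ℚ F]

/-- the points on the twists of `X_0(11)` -/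
lemma exists_pt {D : ℤ} (hD : D ≠ 0) {x y : F}
    (h : (D : F) * y ^ 2 = x ^ 3 - 13392 * x - 1080432) :
    ∃ P : ((base (tws E11s D) ℚ).baseChange F).toAffine.Point,
      crd P 0 = (D : F) * x ∧ crd P 1 = (D : F) ^ 2 * y ∧ crd P 2 = 1 := by
  have hd : ((base (tws E11s D) ℚ).baseChange F).Δ ≠ 0 := by
    have e1 : (base (tws E11s D) ℚ).baseChange F = base (tws E11s D) F := base_map _ _
    rw [e1, WeierstrassCurve.map_Δ, tws_disc ⟨rfl, rfl, rfl⟩]
    simpa using ⟨disc11, hD⟩
  have a1 : ((base (tws E11s D) ℚ).baseChange F).a₁ = 0 := by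
    show algebraMap ℚ F ((0 : ℤ) : ℚ) = 0
    simp
  have a2 : ((base (tws E11s D) ℚ).baseChange F).a₂ = 0 := by
    show algebraMap ℚ F ((0 : ℤ) : ℚ) = 0
    simp
  have a3 : ((base (tws E11s D) ℚ).baseChange F).a₃ = 0 := by
    show algebraMap ℚ F ((0 : ℤ) : ℚ) = 0
    simp
  have a4 : ((base (tws E11s D) ℚ).baseChange F).a₄ = -13392 * (D : F) ^ 2 := by
    show algebraMap ℚ F (((-13392 : ℤ) * D ^ 2 : ℤ) : ℚ) = _
    simp
  have a6 : ((base (tws E11s D) ℚ).baseChange F).a₆ = -1080432 * (D : F) ^ 3 := by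
    show algebraMap ℚ F (((-1080432 : ℤ) * D ^ 3 : ℤ) : ℚ) = _
    simp
  have heq : ((base (tws E11s D) ℚ).baseChange F).toAffine.Equation ((D : F) * x)
      ((D : F) ^ 2 * y) := by
    rw [Affine.equation_iff, a1, a2, a3, a4, a6]
    linear_combination (D : F) ^ 3 * h
  have hns := (Affine.equation_iff_nonsingular_of_Δ_ne_zero hd).1 heq
  exact ⟨.some _ _ hns, rfl, rfl, rfl⟩

lemma ex_onX {D : Fin 2 → ℤ} (hD : ∀ i, D i ≠ 0) {x y : Fin 2 → F}
    (h : ∀ i, (D i : F) * y i ^ 2 = x i ^ 3 - 13392 * x i - 1080432) (hx : x 0 * x 1 = 21039)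
    (P : (i : Fin 2) → ((base (tws E11s (D i)) ℚ).baseChange F).toAffine.Point)
    (hP : ∀ i, crd (P i) 0 = (D i : F) * x i ∧ crd (P i) 1 = (D i : F) ^ 2 * y i ∧
      crd (P i) 2 = 1) :
    OnX {g | ∃ f ∈ exS, g = twp D f} (fun i => crd (P i)) := by
  rintro g ⟨f, hf, rfl⟩
  let A := AlgebraicClosure F
  have : CharZero A := charZero_of_injective_algebraMap (algebraMap F A).injective
  choose δ hδ using fun i => IsAlgClosed.exists_pow_nat_eq ((D i : ℤ) : A) (n := 2) two_pos
  have hδ0 : ∀ i, δ i ≠ 0 := by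
    intro i h0
    have h1 := hδ i
    rw [h0, zero_pow two_ne_zero] at h1
    exact hD i (by exact_mod_cast h1.symm)
  obtain ⟨hev, d, hd⟩ := exS_me f hf
  apply (algebraMap F A).injective
  rw [map_zero, ← aeval_algebraMap_apply, twp_eval D δ hδ f hev]
  have e : (fun p : Fin 2 × Fin 3 => scl (δ p.1) (D p.1) p.2 *
      algebraMap F A (crd (P p.1) p.2)) =
      fun p => (D p.1 : A) * (![algebraMap F A (x p.1), δ p.1 * algebraMap F A (y p.1), 1] : Fin 3 → A) p.2 := by
    funext p
    obtain ⟨i, j⟩ := p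
    obtain ⟨h0, h1, h2⟩ := hP i
    fin_cases j
    · show 1 * algebraMap F A (crd (P i) 0) = (D i : A) * algebraMap F A (x i)
      rw [h0, map_mul, map_intCast, one_mul]
    · show (δ i)⁻¹ * algebraMap F A (crd (P i) 1) = (D i : A) * (δ i * algebraMap F A (y i))
      rw [h1, map_mul, map_pow, map_intCast]
      have h3 : (D i : A) ^ 2 = (δ i) * ((D i : A) * δ i) := by
        rw [← hδ i]; ring
      rw [h3, mul_assoc (δ i), inv_mul_cancel_left₀ (hδ0 i)]
      ring
    · show (D i : A) * algebraMap F A (crd (P i) 2) = (D i : A) * 1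
      rw [h2, map_one]
  have e' : (fun p : Fin 2 × Fin 3 => scl (δ p.1) (D p.1) p.2 *
      ((algebraMap F A) ∘ fun p => crd (P p.1) p.2) p) = _ := e
  have hq : ∀ i, (δ i * algebraMap F A (y i)) ^ 2 =
      algebraMap F A (x i) ^ 3 - 13392 * algebraMap F A (x i) - 1080432 := by
    intro i
    have h1 := congrArg (algebraMap F A) (h i)
    simp only [map_mul, map_sub, map_pow, map_intCast, map_ofNat] at h1
    rw [mul_pow, hδ i, h1]
  have hxA : algebraMap F A (x 0) * algebraMap F A (x 1) = 21039 := by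
    rw [← map_mul, hx, map_ofNat]
  first
    | rw [e]
    | rw [e']
  rw [aeval_def, ← eval_map]
  have hm' : MultiHom d (map (algebraMap ℚ A) f) :=
    fun m hm => hd m (MvPolynomial.support_map_subset _ _ hm)
  rw [hm'.eval_smul (fun i => (D i : A))
    (fun p => (![algebraMap F A (x p.1), δ p.1 * algebraMap F A (y p.1), 1] : Fin 3 → A) p.2)]
  refine mul_eq_zero_of_right _ ?_
  have q0 := hq 0
  have q1 := hq 1
  rcases hf with rfl | rfl | rfl | rfl
  · simp only [qq, map_sub, map_add, map_mul, map_pow, MvPolynomial.map_X, MvPolynomial.map_C,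
      eval_X, eval_C, pow_one, Matrix.cons_val, map_ofNat]
    linear_combination hxA
  · simp only [qq, map_sub, map_add, map_mul, map_pow, MvPolynomial.map_X, MvPolynomial.map_C,
      eval_X, eval_C, pow_one, Matrix.cons_val, map_ofNat]
    linear_combination algebraMap F A (x 1) * q0 + algebraMap F A (x 0) ^ 2 * hxA
  · simp only [qq, map_sub, map_add, map_mul, map_pow, MvPolynomial.map_X, MvPolynomial.map_C,
      eval_X, eval_C, pow_one, Matrix.cons_val, map_ofNat]
    linear_combination algebraMap F A (x 0) * q1 + algebraMap F A (x 1) ^ 2 * hxA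
  · simp only [qq, map_sub, map_add, map_mul, map_pow, MvPolynomial.map_X, MvPolynomial.map_C,
      eval_X, eval_C, pow_one, Matrix.cons_val, map_ofNat]
    linear_combination ((δ 1 * algebraMap F A (y 1)) ^ 2 + 13392 * algebraMap F A (x 1) + 1080432) * q0
      + algebraMap F A (x 0) ^ 3 * q1
      + algebraMap F A (x 0) ^ 2 * algebraMap F A (x 1) ^ 2 * hxA

end ex

end Pool.Agent.N168.TE
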